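import Mathlib
import Pool.Agent.U128.Tf.Grow

/-!
# The weak polynomial Freiman-Ruzsa theorem with an arbitrary group of automorphisms

Let a group `G` (finite or infinite) act by automorphisms on the abelian group `Γ` (`g • A` is the image
of `A`). The conjecture concerns finite sets `A` with `|A + A| ≤ K |A|` in torsion-free groups. Its part
about the rank, the weak form, is a theorem (Gowers, Green, Manners, Tao; in the starting library
`W860.OB.gap_cover`): `A` is covered by polynomially many cosets of a subgroup of rank `O(log 2 K)`. Here
we consider sets with `|A + g A| ≤ K |A|` for all `g` in `G`, for instance `G`-invariant sets with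
doubling `K`, and prove, with absolute constants, independent of `G` and of `Γ`:

1. **Structure.** There are a `G`-INVARIANT pure subgroup `N` of rank at most `r`, a finite symmetric
   `G`-INVARIANT set `S ⊆ N` with `|S| ≤ (2 K) ^ C |A|`, `|S + S| ≤ (2 K) ^ C |S|`, and a finite set `T` with
   `A ⊆ T + S`, where `|T| e ^ r ≤ (2 K) ^ C`. So `A` is covered by at most `(2 K) ^ C` cosets of the
   invariant subgroup `N` of rank at most `C log (2 K)`, and it is commensurable with an invariant set
   contained in `N`. (Pure: `n x ∈ N` for an integer `n ≠ 0` implies `x ∈ N`. If `Γ` is torsion-free, `N` is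
   the intersection of `Γ` with an invariant rational subspace of dimension at most `r`.)
2. **Converse.** Each set covered by `L` translates of a finite `G`-invariant set `S` with
   `|S + S| ≤ L |S|`, `|S| ≤ L |A|` has `|A + g A| ≤ L ^ 4 |A|` for all `g`. So 1 is a characterisation up to
   the exponents of the almost invariant sets for an arbitrary group of automorphisms.
3. **Growth.** If `0` is the only `G`-invariant pure subgroup of rank less than `d`, then every finite
   nonempty set `A` has a `g` in `G` with `|A + g A| ≥ (1/2) min (|A|, e ^ d) ^ c |A|`, `c = 1 / 60301`.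
4. For example, a finite nonempty set `A ⊆ ℤ ^ d` which is invariant under the permutations and the
   changes of sign of the coordinates satisfies `|A + A| ≥ (1/2) min (|A|, e ^ d) ^ c |A|`. (The cubes
   `[-n, n] ^ d`, with `|A + A| < 2 ^ d |A|`, show that the term `e ^ d` cannot be omitted or replaced by
   a function growing faster than exponentially.)

The proof of 1. (a) The weak theorem gives a subspace `W` of `ℚ ⊗ Γ` of dimension `O(log 2 K)`; by
Ruzsa's covering lemma all `g A` are covered by polynomially many cosets of `W`. For a finite-dimensional
subspace `U` let `F g U` be the sum of `dim U` and of the entropy of the uniform distribution of `g A`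
modulo `U`. It is a submodular function of `U`. For a finite group one could take the smallest minimiser of
the mean value over the group. For arbitrary groups we consider all functions `f` obtained from the
functions `F g` by taking mean values of two functions repeatedly; let `s` be the supremum of their
minima, `s ≤ F g W = O(log 2 K)`. If the minima of `f` and `f'` are close to `s`, this holds for
`(f + f') / 2` too, and the near minimisers of the latter are near minimisers of `f` and of `f'`. The
near minimisers of `f` are almost stable under intersections, so (for suitable tolerances, where the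
smallest possible dimension of a near minimiser does not depend on the tolerance) the near minimiser of
smallest dimension is unique; with `f' = g f` it follows that it is invariant under all `g`
(`Pool.Agent.U128.Tf.invariance`, an invariance principle for submodular functions and arbitrary groups).
(b) By B. H. Neumann's lemma on coverings by cosets there is a `g` for which a collision `a + g b = a' + g b'`
is only possible if `b - b'` has a finite orbit, so `A` has at least `|A| / K` elements in one coset of the
subgroup of the elements with finite orbits. For such a set `D` the orbit `O` of `D` is finite, and the set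
`B` of the elements which are differences of elements of `E` for many members `E` of `O` is invariant,
symmetric and commensurable with `A`. Finally `S` is the intersection of `8 B` with `N`.
-/

set_option autoImplicit false
open scoped Pointwise

namespace Pool.Agent.Results.MP_86f7a7_co.InvariantSubspaces

universe u v

/-- **The weak polynomial Freiman-Ruzsa theorem with a group `G` of automorphisms**: (1) structure,
(2) converse, (3) growth, (4) sets of lattice points with the symmetries of the cube. -/
theorem result (Γ : Type u) [AddCommGroup Γ] [DecidableEq Γ] (G : Type v) [Group G]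
    [DistribMulAction G Γ] :
    (∀ (K : ℝ) (A : Finset Γ), A.Nonempty →
      (∀ g : G, ((A + g • A).card : ℝ) ≤ K * A.card) →
      ∃ (N : AddSubgroup Γ) (S T : Finset Γ) (r : ℕ), (∀ g : G, ∀ x ∈ N, g • x ∈ N) ∧
        (∀ (n : ℤ) (x : Γ), n ≠ 0 → n • x ∈ N → x ∈ N) ∧ Module.rank ℤ N ≤ r ∧
        (∀ x ∈ S, x ∈ N) ∧ (∀ g : G, g • S = S) ∧ (∀ x ∈ S, -x ∈ S) ∧
        (S.card : ℝ) ≤ (2 * K) ^ 60300 * A.card ∧
        ((S + S).card : ℝ) ≤ (2 * K) ^ 60300 * S.card ∧
        (T.card : ℝ) * Real.exp r ≤ (2 * K) ^ 60300 ∧ A ⊆ T + S) ∧
    (∀ (L : ℝ) (A S T : Finset Γ), 0 ≤ L → (∀ g : G, g • S = S) →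
      (S.card : ℝ) ≤ L * A.card → ((S + S).card : ℝ) ≤ L * S.card → (T.card : ℝ) ≤ L →
      A ⊆ T + S → ∀ g : G, ((A + g • A).card : ℝ) ≤ L ^ 4 * A.card) ∧
    (∀ d : ℕ, (∀ N : AddSubgroup Γ, (∀ g : G, ∀ x ∈ N, g • x ∈ N) →
        (∀ (n : ℤ) (x : Γ), n ≠ 0 → n • x ∈ N → x ∈ N) → Module.rank ℤ N < d → N = ⊥) →
      ∀ A : Finset Γ, A.Nonempty → ∃ g : G,
        1 / 2 * (min (A.card : ℝ) (Real.exp d)) ^ ((1 : ℝ) / 60301) * A.card ≤
          (A + g • A).card) ∧
    (∀ (d : ℕ) (A : Finset (Fin d → ℤ)), A.Nonempty →
      (∀ (σ : Equiv.Perm (Fin d)), ∀ x ∈ A, x ∘ σ ∈ A) →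
      (∀ (i : Fin d), ∀ x ∈ A, Function.update x i (-x i) ∈ A) →
      1 / 2 * (min (A.card : ℝ) (Real.exp d)) ^ ((1 : ℝ) / 60301) * A.card ≤ (A + A).card) := by
  refine ⟨?_, ?_, ?_, ?_⟩
  · intro K A hA hK
    exact Pool.Agent.U128.Tf.struct A hA K hK
  · intro L A S T hL hinv hSA hSS hT hcov g
    exact Pool.Agent.U128.Tf.conv A S T L hL hinv hSA hSS hT hcov g
  · intro d hirr A hA
    exact Pool.Agent.U128.Tf.growth d hirr A hA
  · intro d A hA hperm hflip
    exact Pool.Agent.U128.Tf.cube d A hA hperm hflip

end Pool.Agent.Results.MP_86f7a7_co.InvariantSubspaces
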