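import Pool.Agent.U234.LD.Tors
import Pool.Agent.U234.LD.Lin

/-!
# Sets with small sums with logarithmically many images under the powers of an endomorphism

The conjecture asks for the structure of finite sets `A` with `|A + A| ≤ K |A|`. We determine this
structure if `A` has also small sums with about `log K` of its images under the powers of an endomorphism.
Let `Γ` be ANY abelian group (for instance a torsion free one), `φ` ANY endomorphism of `Γ`, `0 < ε ≤ 1`
and `C (ε) = 2 + 144 ε⁻² exp (6 / ε)`. Let `U` be the set of all `x ∈ Γ` with `φ ^ i P (φ) x = 0` for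
some `i` and some integral polynomial `P` with `P (0) = 1`. All bounds are independent of `Γ` and `φ`.

(1) Let `S` be ANY set of at least `C (ε) (1 + log K)` natural numbers with `|A + φ ^ s A| ≤ K |A|` for all
`s ∈ S` (more generally `|A + φ ^ s Q (φ) A| ≤ K |A|` for an integral polynomial `Q` with `Q (0) = 1`, which
may depend on `s`), and `|A + A| ≤ K |A|`. Then `U` is a subgroup and `A` is covered by `K ^ (2 + ε)` cosets
of `U`.
(2) If `U = 0`, then `|A| ≤ K ^ (1 + ε)`; here `|A + A| ≤ K |A|` need not be assumed. In particular the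
conclusion of Q1 holds for `A` (with a progression with one element).
(3) If `U = 0` then for all finite nonempty `A, B ⊆ Γ` (no assumptions on sums)
`|A + φ ^ s Q (φ) B| ≥ (|A| |B|) ^ (1 - ε)` for all integral `Q` with `Q (0) = 1` and all but
`(2 + 8 ε⁻² exp (2 / ε)) log |A|` natural numbers `s`.
(4) Linear transformations: `U = 0` if `φ` is a linear transformation of a finite dimensional vector space
over an algebraically closed field (for instance a complex matrix) such that no eigenvalue is `0` or the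
inverse of an algebraic integer (an element which is integral over `ℤ`).
(5) Torsion: let `q ≥ 2`, `|A + A| ≤ K |A|`, and let there be at least `C (ε) (1 + log K)` natural numbers
`s` such that `|A + q ^ s u A| ≤ K |A|` for some integer `u` prime to `q`. Then `A` is covered by
`K ^ (2 + ε)` cosets of a finite subgroup. If the torsion elements of `Γ` are killed by `m ≥ 1` and
`ε = 1`, then `A` is covered by `(2 K) ^ (123018 (⌊log₂ m⌋ + 1))` cosets of a finite subgroup of order at
most `|A|`.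
(6) The number `log K` of the exponents is optimal up to a constant: for all `k` and `n` there is a set `A`
of `2 ^ n` integers with `|A + 2 ^ s A| ≤ K |A|`, `K = 2 ^ (k + 1)`, for the `k + 1 = log₂ K` exponents
`0 ≤ s ≤ k`.

Proof. Entropies: let `M` be the `ℤ[φ]`-module generated by `A` and let `F_t` be the set of the `x` in `M`
with `φ ^ i x ∈ φ ^ (i + t) M` for some `i`. The map `φ ^ s Q (φ)` shifts this filtration by exactly `s`.
The entropy of `X + φ ^ s Q (φ) Y`, `X` and `Y` independent random elements of `A`, is bounded from below by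
the increments of the entropy of `X` modulo `F_t`, and a weighted average over `S` shows that most of
the entropy of `A` lives in one coset of the intersection of the `F_t`, which is contained in `U` by Krull's
theorem. (5) uses the starting result on groups of bounded exponent (after Gowers, Green, Manners, Tao).
-/

set_option autoImplicit false
open scoped Pointwise
open Polynomial

universe u v

namespace Pool.Agent.Results.MP_86f7a7_co.PowersOfEndomorphisms

/-- `A` is covered by at most `L` cosets of `U`. -/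
def Cov {Γ : Type u} [AddCommGroup Γ] (A : Finset Γ) (U : AddSubgroup Γ) (L : ℝ) : Prop :=
  ∃ T : Finset Γ, (T.card : ℝ) ≤ L ∧ ∀ a ∈ A, ∃ t ∈ T, a - t ∈ U

/-- `C (ε) = 2 + 144 ε⁻² exp (6 / ε)` -/
noncomputable def C (ε : ℝ) : ℝ := 2 + 144 / ε ^ 2 * Real.exp (6 / ε)

/-- `x` is killed by `φ ^ i P (φ)` for some natural number `i` and some integral polynomial `P` with
`P (0) = 1`. -/
def Killed {Γ : Type u} [AddCommGroup Γ] (φ : Module.End ℤ Γ) (x : Γ) : Prop :=
  ∃ (i : ℕ) (P : ℤ[X]), P.coeff 0 = 1 ∧ (aeval φ (X ^ i * P)) x = 0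

/-- **Sets with small sums with logarithmically many images under the powers of an endomorphism.** -/
theorem result :
    -- (1) endomorphisms
    (∀ (ε : ℝ), 0 < ε → ε ≤ 1 → ∀ (Γ : Type u) [AddCommGroup Γ] [DecidableEq Γ]
      (φ : Module.End ℤ Γ) (K : ℝ) (A : Finset Γ) (S : Finset ℕ), A.Nonempty →
      ((A + A).card : ℝ) ≤ K * A.card → C ε * (1 + Real.log K) ≤ S.card →
      (∀ s ∈ S, ∃ Q : ℤ[X], Q.coeff 0 = 1 ∧
        ((A + A.image fun x => (aeval φ (X ^ s * Q)) x).card : ℝ) ≤ K * A.card) →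
      ∃ U : AddSubgroup Γ, (∀ x, x ∈ U ↔ Killed φ x) ∧ Cov A U (K ^ (2 + ε))) ∧
    -- (2) no killed elements
    (∀ (ε : ℝ), 0 < ε → ε ≤ 1 → ∀ (Γ : Type u) [AddCommGroup Γ] [DecidableEq Γ]
      (φ : Module.End ℤ Γ), (∀ x, Killed φ x → x = 0) →
      ∀ (K : ℝ) (A : Finset Γ) (S : Finset ℕ), 1 ≤ K → A.Nonempty →
      C ε * (1 + Real.log K) ≤ S.card →
      (∀ s ∈ S, ∃ Q : ℤ[X], Q.coeff 0 = 1 ∧
        ((A + A.image fun x => (aeval φ (X ^ s * Q)) x).card : ℝ) ≤ K * A.card) →
      (A.card : ℝ) ≤ K ^ (1 + ε)) ∧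
    -- (3) the exceptional exponents for two arbitrary sets
    (∀ (ε : ℝ), 0 < ε → ε ≤ 1 → ∀ (Γ : Type u) [AddCommGroup Γ] [DecidableEq Γ]
      (φ : Module.End ℤ Γ), (∀ x, Killed φ x → x = 0) →
      ∀ (A B : Finset Γ), A.Nonempty → B.Nonempty →
      {s : ℕ | ∃ Q : ℤ[X], Q.coeff 0 = 1 ∧
        ((A + B.image fun x => (aeval φ (X ^ s * Q)) x).card : ℝ) <
          ((A.card : ℝ) * B.card) ^ (1 - ε)}.Finite ∧
      ({s : ℕ | ∃ Q : ℤ[X], Q.coeff 0 = 1 ∧
        ((A + B.image fun x => (aeval φ (X ^ s * Q)) x).card : ℝ) <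
          ((A.card : ℝ) * B.card) ^ (1 - ε)}.ncard : ℝ) ≤
        (2 + 8 / ε ^ 2 * Real.exp (2 / ε)) * Real.log A.card) ∧
    -- (4) linear transformations without killed vectors
    (∀ (F : Type v) [Field F] [IsAlgClosed F] (V : Type u) [AddCommGroup V] [Module F V]
      [FiniteDimensional F V] (L : Module.End F V),
      (∀ l : F, L.HasEigenvalue l → l ≠ 0 ∧ ¬ IsIntegral ℤ l⁻¹) →
      ∀ x, Killed (L.restrictScalars ℤ) x → x = 0) ∧
    -- (5) torsion
    (∀ (ε : ℝ), 0 < ε → ε ≤ 1 → ∀ (Γ : Type u) [AddCommGroup Γ] [DecidableEq Γ]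
      (q : ℕ) (K : ℝ) (A : Finset Γ) (S : Finset ℕ), 2 ≤ q → A.Nonempty →
      ((A + A).card : ℝ) ≤ K * A.card → C ε * (1 + Real.log K) ≤ S.card →
      (∀ s ∈ S, ∃ u : ℤ, IsCoprime u (q : ℤ) ∧
        ((A + A.image fun x => ((q : ℤ) ^ s * u) • x).card : ℝ) ≤ K * A.card) →
      (∃ U : AddSubgroup Γ, Finite U ∧ Cov A U (K ^ (2 + ε))) ∧
      (ε = 1 → ∀ m : ℕ, 1 ≤ m → (∀ (x : Γ) (n : ℤ), n ≠ 0 → n • x = 0 → m • x = 0) →
        ∃ U : AddSubgroup Γ, Finite U ∧ Nat.card U ≤ A.card ∧
          Cov A U ((2 * K) ^ (123018 * (Nat.log 2 m + 1))))) ∧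
    -- (6) the number of exponents is optimal up to a constant
    (∀ k n : ℕ, ∃ A : Finset ℤ, A.card = 2 ^ n ∧
      ∀ s ≤ k, (A + A.image fun x => ((2 : ℤ) ^ s) • x).card ≤ 2 ^ (k + 1) * A.card) := by
  refine ⟨?_, ?_, ?_, ?_, ?_, ?_⟩
  · intro ε hε hε1 Γ _ _ φ K A S hA hK hS hsum
    obtain ⟨T, _, h1, h2⟩ := Pool.Agent.U234.LD.endo_cov φ A hA K hK ε hε hε1 S hS hsum
    exact ⟨Pool.Agent.U234.LD.Ker φ, fun _ => Iff.rfl, T, h1, h2⟩
  · intro ε hε hε1 Γ _ _ φ hφ K A S hK hA hS hsum
    exact Pool.Agent.U234.LD.endo_small φ (fun x hx => hφ x hx) A hA K hK ε hε hε1 S hS hsum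
  · intro ε hε hε1 Γ _ _ φ hφ A B hA hB
    refine Pool.Agent.U234.LD.endo_exceptional φ ?_ A B hA hB ε hε hε1
    rw [eq_bot_iff]
    intro x hx
    exact hφ x hx
  · intro F _ _ V _ _ _ L hL x hx
    exact Pool.Agent.U234.LD.lin_killed L hL x hx
  · intro ε hε hε1 Γ _ _ q K A S hq hA hK hS hsum
    refine ⟨?_, ?_⟩
    · obtain ⟨U, T, h1, _, _, h2, h3⟩ :=
        Pool.Agent.U234.LD.int_cov q hq A hA K hK ε hε hε1 S hS hsum
      exact ⟨U, h1, T, h2, h3⟩
    · rintro rfl m hm htor
      obtain ⟨U, T, h1, h2, h3, h4⟩ :=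
        Pool.Agent.U234.LD.tor_cov m hm htor q hq A hA K hK S hS hsum
      exact ⟨U, h1, h2, T, h3, h4⟩
  · intro k n
    refine ⟨_, (Pool.Agent.U234.LD.example_interval n 0).1, ?_⟩
    intro s hs
    refine (Pool.Agent.U234.LD.example_interval n s).2.trans ?_
    exact Nat.mul_le_mul_right _ (Nat.pow_le_pow_right (by norm_num) (by omega))

end Pool.Agent.Results.MP_86f7a7_co.PowersOfEndomorphisms
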