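import Pool.Agent.U546.PV.Sharp

/-!
# Polynomial bounds with the sharp rank `log₂ K + ε` for sets with many almost periods

Let `A`, `B` be finite subsets of a torsion-free abelian group, `|A + B| ≤ K |A|`,
`|A + B| ≤ K |B|`, `0 < ε ≤ 1` and `R = 2K/ε`. Suppose that `B` has at least `R^(-D) |B|` shifts `t`
with `|B \ (B - t)| ≤ |B| / (32 R³)`, or that the translates `a + B` (`a ∈ A`) shatter no set of
more than `D / 13` elements. Then `A` is covered by `R^(4D) (1 + D)^(850000 D)` translates of a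
proper progression `P` of rank at most `2700 D` and size at most `|A|`, and `P` lies in a subgroup
of rank at most `log₂ K + ε`.
-/

set_option autoImplicit false

namespace Pool.Agent.Results.MP_86f7a7_co.SharpRank

open scoped Pointwise

/-- the number of `t ∈ B - B` for which at most `δ |B|` elements `b ∈ B` have `b + t ∉ B` -/
noncomputable def periods {Z : Type} [AddCommGroup Z] [DecidableEq Z] (B : Finset Z) (δ : ℝ) : ℕ :=
  {t : Z | t ∈ B - B ∧ ((B.filter fun b => b + t ∉ B).card : ℝ) ≤ δ * B.card}.ncard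

/-- the translates `a + B` with `a ∈ A` shatter no set of more than `d` elements -/
def VCle {Z : Type} [AddCommGroup Z] (A B : Finset Z) (d : ℕ) : Prop :=
  ∀ S : Finset Z, (∀ T ⊆ S, ∃ a ∈ A, ∀ s ∈ S, (s ∈ T ↔ s - a ∈ B)) → S.card ≤ d

theorem periods_eq {Z : Type} [AddCommGroup Z] [DecidableEq Z] (B : Finset Z) (δ : ℝ) :
    periods B δ = (Pool.Agent.U546.PV.PG B δ).card := by
  classical
  rw [← Set.ncard_coe_finset]
  unfold periods Pool.Agent.U546.PV.PG Pool.Agent.U546.PV.dst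
  congr 1
  ext t
  simp

theorem result (Z : Type) [AddCommGroup Z] [DecidableEq Z]
    (htf : ∀ (n : ℕ) (x : Z), n ≠ 0 → n • x = 0 → x = 0) (A B : Finset Z) (hA : A.Nonempty)
    (hB : B.Nonempty) (K : ℝ) (hKA : ((A + B).card : ℝ) ≤ K * A.card)
    (hKB : ((A + B).card : ℝ) ≤ K * B.card) (ε : ℝ) (hε0 : 0 < ε) (hε1 : ε ≤ 1) (D : ℕ)
    (hD : 1 ≤ D)
    (h : (B.card : ℝ) ≤ (2 * K / ε) ^ D * periods B (1 / (32 * (2 * K / ε) ^ 3)) ∨
      ∃ d : ℕ, 13 * d ≤ D ∧ VCle A B d) :
    ∃ (k : ℕ) (v : Fin k → Z) (N : Fin k → ℕ) (r : ℕ) (u : Fin r → Z) (T : Finset Z),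
      (r : ℝ) ≤ Real.logb 2 K + ε ∧
      (∀ i, ∃ n : ℕ, n ≠ 0 ∧ n • v i ∈ AddSubgroup.closure (Set.range u)) ∧
      k ≤ 2700 * D ∧ (∀ i, 1 ≤ N i) ∧
      (∀ m n : Fin k → ℕ, (∀ i, m i < N i) → (∀ i, n i < N i) →
        ∑ i, m i • v i = ∑ i, n i • v i → m = n) ∧
      ∏ i, N i ≤ A.card ∧
      (T.card : ℝ) ≤ (2 * K / ε) ^ (4 * D) * (1 + (D : ℝ)) ^ (850000 * D) ∧
      ∀ a ∈ A, ∃ t ∈ T, ∃ n : Fin k → ℕ, (∀ i, n i < N i) ∧ a = t + ∑ i, n i • v i := by
  classical
  have hK1 := Pool.Agent.U546.PV.one_le_K hA hB hKB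
  have hper : (B.card : ℝ) ≤ (2 * K / ε) ^ D *
      (Pool.Agent.U546.PV.PG B (1 / (32 * (2 * K / ε) ^ 3))).card := by
    rcases h with h | ⟨d, hd, h⟩
    · rw [periods_eq] at h
      exact h
    · exact Pool.Agent.U546.PV.vcT1 hA hB hε0 hε1 hD hd hKA hKB h
  obtain ⟨k, v, L, b, T, hb, hv, hk, hprop, hvol, hT, hc⟩ :=
    Pool.Agent.U546.PV.T1 htf hA hB hK1 hKA hKB hε0 hε1 hD hper
  obtain ⟨z, hz⟩ : ∃ z : Z, z = ∑ i, (L i : ℤ) • v i := ⟨_, rfl⟩
  have hrange : Set.range (fun i : Fin b.card => (b.equivFin.symm i : Z)) = (b : Set Z) := by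
    ext x
    constructor
    · rintro ⟨i, rfl⟩
      exact (b.equivFin.symm i).2
    · intro hx
      exact ⟨b.equivFin ⟨x, hx⟩, by simp⟩
  refine ⟨k, v, fun i => 2 * L i + 1, b.card, fun i => (b.equivFin.symm i : Z),
    T.image (fun t => t - z), hb, ?_, hk,
    fun i => by simp only; omega, ?_, hvol, ?_, ?_⟩
  · intro i
    rw [hrange]
    exact hv i
  · intro m n hm hn hmn
    have h1 := hprop (fun i => (m i : ℤ) - L i) (fun i => (n i : ℤ) - L i) (by
        intro i
        have := hm i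
        simp only at this
        rw [abs_le]
        constructor <;> omega) (by
        intro i
        have := hn i
        simp only at this
        rw [abs_le]
        constructor <;> omega) (by
        simp only [sub_smul, Finset.sum_sub_distrib, natCast_zsmul]
        rw [hmn])
    funext i
    have h2 : (m i : ℤ) - L i = (n i : ℤ) - L i := congrFun h1 i
    omega
  · refine le_trans ?_ hT
    have h1 : (T.image (fun t => t - z)).card ≤ T.card := Finset.card_image_le
    exact_mod_cast h1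
  · intro a ha
    obtain ⟨t, ht, c, hc1, hc2⟩ := hc a ha
    refine ⟨t - z, Finset.mem_image_of_mem _ ht, fun i => (c i + L i).toNat, ?_, ?_⟩
    · intro i
      have := abs_le.1 (hc1 i)
      simp only
      omega
    · have h1 : ∑ i, (c i + L i).toNat • v i = ∑ i, c i • v i + z := by
        rw [hz, ← Finset.sum_add_distrib]
        refine Finset.sum_congr rfl fun i _ => ?_
        have := abs_le.1 (hc1 i)
        rw [← natCast_zsmul, Int.toNat_of_nonneg (by omega), add_smul]
      rw [h1, hc2]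
      abel

end Pool.Agent.Results.MP_86f7a7_co.SharpRank
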