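import Pool.Agent.U234.LD.Padic

/-!
# Sums with dilates: the valuations of the exceptional dilates

The conjecture asks for the structure of finite sets `A` in torsion free groups with `|A + A| ≤ K |A|`.
We show that a set cannot have small sums with dilates of many different valuations unless it is small
in terms of `K`; this holds for arbitrary (also different) sets and the bounds do not depend on the
group, on the sets, on the valuation and on the dilates. Let `0 < ε ≤ 1`, `C₁ (ε) = 2 + 8 ε⁻² exp (2 / ε)`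
and `C₂ (ε) = 2 + 144 ε⁻² exp (6 / ε)`; `log` is the natural logarithm.

(1) Let `Γ` be torsion free, `p` a prime and `A, B ⊆ Γ` finite and nonempty. The `p`-adic valuations of
all the integers `d ≠ 0` with `|A + d B| < (|A| |B|) ^ (1 - ε)` form a set with at most
`C₁ (ε) log |A|` elements.
(2) Let `v` be ANY discrete (rank one) valuation of ANY field `F`, `V` a vector space over `F` and
`A, B ⊆ V` finite and nonempty. The valuations of all the `c ≠ 0` in `F` with
`|A + c B| < (|A| |B|) ^ (1 - ε)` form a set with at most `C₁ (ε) log (|A| |B|)` elements. For instance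
`F = ℚ`, number fields, function fields.
(3) Let `λ ≠ 0` be an element of a field `F` such that `λ` and `1 / λ` are not both integral over `ℤ`
(for `F = ℂ`: `λ` is any number which is not a unit of the ring of algebraic integers), `V` a vector space
over `F` and `A, B ⊆ V` finite and nonempty. Then `|A + λ ^ j B| ≥ (|A| |B|) ^ (1 - ε)` for all but
`C₁ (ε) log (|A| |B|)` integers `j`.
(4), (5), (6) Small sums: let `K ≥ 1`. In the situation of (1), let there be integers `d ≠ 0` with at
least `C₂ (ε) (1 + log K)` different `p`-adic valuations such that `|A + d A| ≤ K |A|`. Then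
`|A| ≤ K ^ (1 + ε)`; in particular the conclusion of Q1 holds for `A` (with a progression with one
element). The same in the situations of (2) and (3) if there are at least `2 C₂ (ε) (1 + log K)` different
valuations, respectively exponents `j`.
(7) All these numbers of valuations are optimal up to constants: for `A = {0, ..., 2 ^ n - 1}` one has
`|A + 2 ^ s A| ≤ 2 ^ (s + 1) |A|` for all `s`, which is less than `|A| ^ (2 - 2 ε)` for all
`s < (1 - 2 ε) n - 1`; and for `K = 2 ^ (k + 1)` there are `log₂ K` dilates with different `2`-adic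
valuations and sums of size at most `K |A|`, and `n` is arbitrary.

Proof. Entropies. Let `F_t` be the subgroup of the elements which are divisible by `p ^ t` in the group
generated by `A` and `B` (respectively the module over the valuation ring, or over `ℤ[λ]`), `X` and `Y`
independent random elements of `A` and `B`, `h (t)` and `h' (t)` their entropies modulo `F_t`, and `η_t`,
`η'_t` the increments. If `d` has valuation `s`, the entropy of `X + d Y` is at least
`∑_t max (η_t, η'_(t - s))`. If `s` is exceptional then this is at most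
`(1 - ε) (H (X) + H (Y))`; a weighted average over the exceptional `s` and Krull's intersection theorem
(`⋂ F_t = 0`) bound their number.
-/

set_option autoImplicit false
open scoped Pointwise

universe u v w

namespace Pool.Agent.Results.MP_86f7a7_co.ValuationsOfDilates

/-- `C₁ (ε) = 2 + 8 ε⁻² exp (2 / ε)` -/
noncomputable def C₁ (ε : ℝ) : ℝ := 2 + 8 / ε ^ 2 * Real.exp (2 / ε)

/-- `C₂ (ε) = 2 + 144 ε⁻² exp (6 / ε)` -/
noncomputable def C₂ (ε : ℝ) : ℝ := 2 + 144 / ε ^ 2 * Real.exp (6 / ε)

/-- `|A + c B| < (|A| |B|) ^ (1 - ε)`; `A` and `B` are subsets of a group with a scalar multiplication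
by the elements `c` of `R`. -/
def Exceptional {R : Type v} {V : Type u} [AddCommGroup V] [SMul R V] [DecidableEq V] (ε : ℝ)
    (A B : Finset V) (c : R) : Prop :=
  ((A + B.image fun x => c • x).card : ℝ) < ((A.card : ℝ) * B.card) ^ (1 - ε)

/-- `|A + c A| ≤ K |A|` -/
def Small {R : Type v} {V : Type u} [AddCommGroup V] [SMul R V] [DecidableEq V] (K : ℝ)
    (A : Finset V) (c : R) : Prop :=
  ((A + A.image fun x => c • x).card : ℝ) ≤ K * A.card

/-- `Γ` is torsion free. -/
def TorsionFree (Γ : Type u) [AddCommGroup Γ] : Prop := ∀ (n : ℤ) (x : Γ), n ≠ 0 → n • x = 0 → x = 0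

/-- The finite set `E` has at most `L` elements. -/
def AtMost {G : Type w} (E : Set G) (L : ℝ) : Prop := E.Finite ∧ (E.ncard : ℝ) ≤ L

/-- **The valuations of the exceptional dilates.** -/
theorem result :
    -- (1) integral dilates in torsion free groups
    (∀ (ε : ℝ), 0 < ε → ε ≤ 1 → ∀ (Γ : Type u) [AddCommGroup Γ] [DecidableEq Γ], TorsionFree Γ →
      ∀ (p : ℕ), p.Prime → ∀ (A B : Finset Γ), A.Nonempty → B.Nonempty →
      AtMost {n : ℕ | ∃ d : ℤ, d ≠ 0 ∧ padicValInt p d = n ∧ Exceptional ε A B d}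
        (C₁ ε * Real.log A.card)) ∧
    -- (2) discrete valuations
    (∀ (ε : ℝ), 0 < ε → ε ≤ 1 → ∀ (F : Type v) [Field F] (Γ₀ : Type w)
      [LinearOrderedCommGroupWithZero Γ₀] (v : Valuation F Γ₀) [v.IsRankOneDiscrete]
      (V : Type u) [AddCommGroup V] [Module F V] [DecidableEq V] (A B : Finset V),
      A.Nonempty → B.Nonempty →
      AtMost {g : Γ₀ | ∃ c : F, c ≠ 0 ∧ v c = g ∧ Exceptional ε A B c}
        (C₁ ε * Real.log (A.card * B.card))) ∧
    -- (3) powers of one number
    (∀ (ε : ℝ), 0 < ε → ε ≤ 1 → ∀ (F : Type v) [Field F] (l : F), l ≠ 0 →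
      ¬ (IsIntegral ℤ l ∧ IsIntegral ℤ l⁻¹) →
      ∀ (V : Type u) [AddCommGroup V] [Module F V] [DecidableEq V] (A B : Finset V),
      A.Nonempty → B.Nonempty →
      AtMost {j : ℤ | Exceptional ε A B (l ^ j)} (C₁ ε * Real.log (A.card * B.card))) ∧
    -- (4) small sums with integral dilates
    (∀ (ε : ℝ), 0 < ε → ε ≤ 1 → ∀ (Γ : Type u) [AddCommGroup Γ] [DecidableEq Γ], TorsionFree Γ →
      ∀ (p : ℕ), p.Prime → ∀ (A : Finset Γ), A.Nonempty → ∀ (K : ℝ), 1 ≤ K →
      ∀ (G : Finset ℕ), C₂ ε * (1 + Real.log K) ≤ G.card →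
      (∀ n ∈ G, ∃ d : ℤ, d ≠ 0 ∧ padicValInt p d = n ∧ Small K A d) →
      (A.card : ℝ) ≤ K ^ (1 + ε)) ∧
    -- (5) small sums and discrete valuations
    (∀ (ε : ℝ), 0 < ε → ε ≤ 1 → ∀ (F : Type v) [Field F] (Γ₀ : Type w)
      [LinearOrderedCommGroupWithZero Γ₀] (v : Valuation F Γ₀) [v.IsRankOneDiscrete]
      (V : Type u) [AddCommGroup V] [Module F V] [DecidableEq V] (A : Finset V), A.Nonempty →
      ∀ (K : ℝ), 1 ≤ K → ∀ (G : Finset Γ₀), 2 * (C₂ ε * (1 + Real.log K)) ≤ G.card →
      (∀ g ∈ G, ∃ c : F, c ≠ 0 ∧ v c = g ∧ Small K A c) → (A.card : ℝ) ≤ K ^ (1 + ε)) ∧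
    -- (6) small sums and powers of one number
    (∀ (ε : ℝ), 0 < ε → ε ≤ 1 → ∀ (F : Type v) [Field F] (l : F), l ≠ 0 →
      ¬ (IsIntegral ℤ l ∧ IsIntegral ℤ l⁻¹) →
      ∀ (V : Type u) [AddCommGroup V] [Module F V] [DecidableEq V] (A : Finset V), A.Nonempty →
      ∀ (K : ℝ), 1 ≤ K → ∀ (J : Finset ℤ), 2 * (C₂ ε * (1 + Real.log K)) ≤ J.card →
      (∀ j ∈ J, Small K A (l ^ j)) → (A.card : ℝ) ≤ K ^ (1 + ε)) ∧
    -- (7) optimality
    (∀ n : ℕ, ∃ A : Finset ℤ, A.card = 2 ^ n ∧
      (∀ s : ℕ, Small (2 ^ (s + 1)) A ((2 : ℤ) ^ s)) ∧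
      ∀ (ε : ℝ) (s : ℕ), (s : ℝ) < (1 - 2 * ε) * n - 1 → Exceptional ε A A ((2 : ℤ) ^ s)) := by
  refine ⟨?_, ?_, ?_, ?_, ?_, ?_, ?_⟩
  · intro ε hε hε1 Γ _ _ htf p hp A B hA hB
    exact Pool.Agent.U234.LD.padic_exceptional htf p hp A B hA hB ε hε hε1
  · intro ε hε hε1 F _ Γ₀ _ v _ V _ _ _ A B hA hB
    exact Pool.Agent.U234.LD.exceptional_val v A B hA hB ε hε hε1
  · intro ε hε hε1 F _ l hl hint V _ _ _ A B hA hB
    exact Pool.Agent.U234.LD.pow_exceptional l hl hint A B hA hB ε hε hε1
  · intro ε hε hε1 Γ _ _ htf p hp A hA K hK G hG hsum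
    exact Pool.Agent.U234.LD.padic_small htf p hp A hA K hK ε hε hε1 G hG hsum
  · intro ε hε hε1 F _ Γ₀ _ v _ V _ _ _ A hA K hK G hG hsum
    exact Pool.Agent.U234.LD.small_val v A hA K hK ε hε hε1 G hG hsum
  · intro ε hε hε1 F _ l hl hint V _ _ _ A hA K hK J hJ hsum
    exact Pool.Agent.U234.LD.small_pow l hl hint A hA K hK ε hε hε1 J hJ hsum
  · intro n
    have hc := (Pool.Agent.U234.LD.example_interval n 0).1
    have hs : ∀ s : ℕ, Small (2 ^ (s + 1)) ((Finset.range (2 ^ n)).image fun i : ℕ => (i : ℤ))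
        ((2 : ℤ) ^ s) := by
      intro s
      have h := (Pool.Agent.U234.LD.example_interval n s).2
      unfold Small
      exact_mod_cast h
    refine ⟨_, hc, hs, ?_⟩
    intro ε s hlt
    have h := hs s
    unfold Small at h
    unfold Exceptional
    refine lt_of_le_of_lt h ?_
    rw [hc]
    push_cast
    have e1 : ((2 : ℝ) ^ n * 2 ^ n) ^ (1 - ε) = (2 : ℝ) ^ ((2 * n : ℝ) * (1 - ε)) := by
      rw [Real.rpow_mul (by norm_num)]
      congr 1
      rw [← pow_add, ← Real.rpow_natCast]
      congr 1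
      push_cast
      ring
    have e2 : (2 : ℝ) ^ (s + 1) * 2 ^ n = (2 : ℝ) ^ ((s : ℝ) + 1 + n) := by
      rw [← pow_add, ← Real.rpow_natCast]
      push_cast
      rfl
    rw [e1, e2]
    refine Real.rpow_lt_rpow_of_exponent_lt (by norm_num) ?_
    linarith

end Pool.Agent.Results.MP_86f7a7_co.ValuationsOfDilates
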